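import Mathlib

/-! `p`-Banach spaces, extension of Lipschitz maps with values in `p`-Banach spaces, traces and
absolute extendability constants. -/

set_option autoImplicit false

namespace Pool.Agent.X263.PB

open scoped ENNReal NNReal

/-- `N` is a `p`-norm on the real vector space `Z`. -/
structure IsPNorm (p : ℝ) {Z : Type} [AddCommGroup Z] [Module ℝ Z] (N : Z → ℝ) : Prop where
  pos : ∀ x : Z, x ≠ 0 → 0 < N x
  smul : ∀ (a : ℝ) (x : Z), N (a • x) = |a| * N x
  add : ∀ x y : Z, N (x + y) ^ p ≤ N x ^ p + N y ^ p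

/-- `Z` is complete for the metric `N (x - y) ^ p`: every Cauchy sequence converges. -/
def IsCompleteFor (p : ℝ) {Z : Type} [AddCommGroup Z] (N : Z → ℝ) : Prop :=
  ∀ u : ℕ → Z, (∀ ε : ℝ, 0 < ε → ∃ n₀, ∀ m ≥ n₀, ∀ n ≥ n₀, N (u m - u n) ^ p < ε) →
    ∃ x : Z, ∀ ε : ℝ, 0 < ε → ∃ n₀, ∀ n ≥ n₀, N (u n - x) ^ p < ε

/-- For every `p`-Banach space `Z`, every `L`-Lipschitz map `f : S → Z` has an extension to `M`
with Lipschitz constant at most `C * L`. -/
def Extends (p : ℝ) {M : Type} [MetricSpace M] (S : Set M) (C : ℝ) : Prop :=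
  ∀ (Z : Type) [AddCommGroup Z] [Module ℝ Z] (N : Z → ℝ), IsPNorm p N → IsCompleteFor p N →
    ∀ (f : S → Z) (L : ℝ), 0 ≤ L → (∀ x y : S, N (f x - f y) ≤ L * dist x y) →
      ∃ g : M → Z, (∀ x : S, g x = f x) ∧ ∀ x y : M, N (g x - g y) ≤ C * L * dist x y

/-- The `p`-trace of the subset `S` of the metric space `M`. -/
noncomputable def trace (p : ℝ) {M : Type} [MetricSpace M] (S : Set M) : ℝ≥0∞ :=
  ⨅ (C : ℝ≥0) (_ : 0 < C) (_ : Extends p S C), (C : ℝ≥0∞)

/-- The absolute `p`-extendability constant of the metric space `X`: the supremum of the `p`-traces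
of (isometric copies of) `X` in all metric spaces. -/
noncomputable def ae (p : ℝ) (X : Type) [MetricSpace X] : ℝ≥0∞ :=
  ⨆ (M : Type) (_ : MetricSpace M) (i : X → M) (_ : Isometry i), trace p (Set.range i)

/-- The supremum of the absolute `p`-extendability constants of all nonempty metric spaces with at
most `n` points. -/
noncomputable def aeN (p : ℝ) (n : ℕ) : ℝ≥0∞ :=
  ⨆ (X : Type) (_ : MetricSpace X) (_ : Nonempty X) (_ : Finite X) (_ : Nat.card X ≤ n), ae p X

/-- Every closed ball of radius `2 r > 0` is covered by `n` closed balls of radius `r`. -/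
def DoublingLE (X : Type) [MetricSpace X] (n : ℕ) : Prop :=
  ∀ (x : X) (r : ℝ), 0 < r → ∃ c : Fin n → X,
    Metric.closedBall x (2 * r) ⊆ ⋃ i, Metric.closedBall (c i) r

end Pool.Agent.X263.PB
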