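import Pool.Agent.X263.PB.Defs

set_option autoImplicit false

namespace Pool.Agent.X263.PB

open scoped ENNReal NNReal Topology
open Filter

/-- `Q p (α, β)` is the infimum of `|α + c| ^ p + (3 |β - c|) ^ p + (2 |c|) ^ p`. -/
noncomputable def Q (p : ℝ) (v : ℝ × ℝ) : ℝ :=
  ⨅ c : ℝ, (|v.1 + c| ^ p + (3 * |v.2 - c|) ^ p + (2 * |c|) ^ p)

theorem term_nonneg (p : ℝ) (v : ℝ × ℝ) (c : ℝ) :
    0 ≤ |v.1 + c| ^ p + (3 * |v.2 - c|) ^ p + (2 * |c|) ^ p := by
  positivity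

theorem bdd (p : ℝ) (v : ℝ × ℝ) :
    BddBelow (Set.range fun c : ℝ => |v.1 + c| ^ p + (3 * |v.2 - c|) ^ p + (2 * |c|) ^ p) :=
  ⟨0, by rintro _ ⟨c, rfl⟩; exact term_nonneg p v c⟩

theorem Q_le (p : ℝ) (v : ℝ × ℝ) (c : ℝ) :
    Q p v ≤ |v.1 + c| ^ p + (3 * |v.2 - c|) ^ p + (2 * |c|) ^ p := ciInf_le (bdd p v) c

theorem Q_nonneg (p : ℝ) (v : ℝ × ℝ) : 0 ≤ Q p v := le_ciInf fun c => term_nonneg p v c

theorem fst_le_Q {p : ℝ} (hp : 0 < p) (hp1 : p ≤ 1) (v : ℝ × ℝ) : |v.1| ^ p ≤ Q p v := by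
  refine le_ciInf fun c => ?_
  have h1 : |v.1| ≤ |v.1 + c| + 2 * |c| := by
    have := abs_sub (v.1 + c) c
    rw [add_sub_cancel_right] at this
    linarith [abs_nonneg c]
  have h2 := Real.rpow_le_rpow (abs_nonneg _) h1 hp.le
  have h3 := Real.rpow_add_le_add_rpow (abs_nonneg (v.1 + c))
    (by positivity : 0 ≤ 2 * |c|) hp.le hp1
  have h4 : 0 ≤ (3 * |v.2 - c|) ^ p := by positivity
  linarith

theorem snd_le_Q {p : ℝ} (hp : 0 < p) (hp1 : p ≤ 1) (v : ℝ × ℝ) : |v.2| ^ p ≤ Q p v := by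
  refine le_ciInf fun c => ?_
  have h1 : |v.2| ≤ 3 * |v.2 - c| + 2 * |c| := by
    have := abs_add_le (v.2 - c) c
    rw [sub_add_cancel] at this
    linarith [abs_nonneg c, abs_nonneg (v.2 - c)]
  have h2 := Real.rpow_le_rpow (abs_nonneg _) h1 hp.le
  have h3 := Real.rpow_add_le_add_rpow (by positivity : 0 ≤ 3 * |v.2 - c|)
    (by positivity : 0 ≤ 2 * |c|) hp.le hp1
  have h4 : 0 ≤ |v.1 + c| ^ p := by positivity
  linarith

theorem Q_add {p : ℝ} (hp : 0 < p) (hp1 : p ≤ 1) (v w : ℝ × ℝ) :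
    Q p (v + w) ≤ Q p v + Q p w := by
  have key : ∀ c d : ℝ, Q p (v + w) ≤
      (|v.1 + c| ^ p + (3 * |v.2 - c|) ^ p + (2 * |c|) ^ p) +
      (|w.1 + d| ^ p + (3 * |w.2 - d|) ^ p + (2 * |d|) ^ p) := by
    intro c d
    refine (Q_le p (v + w) (c + d)).trans ?_
    have e1 : |(v + w).1 + (c + d)| ^ p ≤ |v.1 + c| ^ p + |w.1 + d| ^ p := by
      refine le_trans (Real.rpow_le_rpow (abs_nonneg _) ?_ hp.le)
        (Real.rpow_add_le_add_rpow (abs_nonneg _) (abs_nonneg _) hp.le hp1)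
      have : (v + w).1 + (c + d) = (v.1 + c) + (w.1 + d) := by
        simp only [Prod.fst_add]
        ring
      rw [this]
      exact abs_add_le _ _
    have e2 : (3 * |(v + w).2 - (c + d)|) ^ p ≤ (3 * |v.2 - c|) ^ p + (3 * |w.2 - d|) ^ p := by
      refine le_trans (Real.rpow_le_rpow (by positivity) ?_ hp.le)
        (Real.rpow_add_le_add_rpow (by positivity) (by positivity) hp.le hp1)
      have : (v + w).2 - (c + d) = (v.2 - c) + (w.2 - d) := by
        simp only [Prod.snd_add]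
        ring
      rw [this]
      linarith [abs_add_le (v.2 - c) (w.2 - d)]
    have e3 : (2 * |c + d|) ^ p ≤ (2 * |c|) ^ p + (2 * |d|) ^ p := by
      refine le_trans (Real.rpow_le_rpow (by positivity) ?_ hp.le)
        (Real.rpow_add_le_add_rpow (by positivity) (by positivity) hp.le hp1)
      linarith [abs_add_le c d]
    linarith
  have h1 : ∀ c : ℝ, Q p (v + w) - (|v.1 + c| ^ p + (3 * |v.2 - c|) ^ p + (2 * |c|) ^ p) ≤
      Q p w := by
    intro c
    refine le_ciInf fun d => ?_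
    linarith [key c d]
  have h2 : Q p (v + w) - Q p w ≤ Q p v := by
    refine le_ciInf fun c => ?_
    linarith [h1 c]
  linarith

theorem Q_zero {p : ℝ} (hp : 0 < p) : Q p 0 = 0 := by
  refine le_antisymm ?_ (Q_nonneg p 0)
  refine (Q_le p 0 0).trans ?_
  simp [Real.zero_rpow hp.ne']

theorem Q_smul_le (p a : ℝ) (v : ℝ × ℝ) : Q p (a • v) ≤ |a| ^ p * Q p v := by
  have h0 : |a| ^ p * Q p v =
      ⨅ c : ℝ, |a| ^ p * (|v.1 + c| ^ p + (3 * |v.2 - c|) ^ p + (2 * |c|) ^ p) := by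
    rw [Q, Real.mul_iInf_of_nonneg (by positivity)]
  rw [h0]
  refine le_ciInf fun c => ?_
  · refine (Q_le p (a • v) (a * c)).trans (le_of_eq ?_)
    have e1 : (a • v).1 + a * c = a * (v.1 + c) := by
      simp only [Prod.smul_fst, smul_eq_mul]
      ring
    have e2 : (a • v).2 - a * c = a * (v.2 - c) := by
      simp only [Prod.smul_snd, smul_eq_mul]
      ring
    rw [e1, e2, abs_mul, abs_mul, abs_mul, Real.mul_rpow (abs_nonneg _) (abs_nonneg _),
      mul_left_comm, Real.mul_rpow (abs_nonneg _) (by positivity), mul_left_comm 2,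
      Real.mul_rpow (abs_nonneg _) (by positivity)]
    ring

theorem Q_smul {p : ℝ} (hp : 0 < p) (a : ℝ) (v : ℝ × ℝ) : Q p (a • v) = |a| ^ p * Q p v := by
  refine le_antisymm (Q_smul_le p a v) ?_
  by_cases ha : a = 0
  · subst ha
    rw [abs_zero, Real.zero_rpow hp.ne', zero_mul]
    exact Q_nonneg _ _
  · have h1 := Q_smul_le p a⁻¹ (a • v)
    rw [smul_smul, inv_mul_cancel₀ ha, one_smul] at h1
    have h2 : 0 < |a| ^ p := Real.rpow_pos_of_pos (abs_pos.2 ha) _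
    calc |a| ^ p * Q p v ≤ |a| ^ p * (|a⁻¹| ^ p * Q p (a • v)) :=
          mul_le_mul_of_nonneg_left h1 h2.le
      _ = Q p (a • v) := by
          rw [← mul_assoc, ← Real.mul_rpow (abs_nonneg _) (abs_nonneg _), ← abs_mul,
            mul_inv_cancel₀ ha, abs_one, Real.one_rpow, one_mul]

/-- The `p`-norm. -/
noncomputable def NN (p : ℝ) (v : ℝ × ℝ) : ℝ := Q p v ^ p⁻¹

theorem NN_rpow {p : ℝ} (hp : 0 < p) (v : ℝ × ℝ) : NN p v ^ p = Q p v := by
  rw [NN, Real.rpow_inv_rpow (Q_nonneg p v) hp.ne']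

theorem NN_nonneg (p : ℝ) (v : ℝ × ℝ) : 0 ≤ NN p v := Real.rpow_nonneg (Q_nonneg p v) _

theorem isPNorm {p : ℝ} (hp : 0 < p) (hp1 : p ≤ 1) : IsPNorm p (NN p) where
  pos v hv := by
    have : 0 < Q p v := by
      by_cases h1 : v.1 = 0
      · have h2 : v.2 ≠ 0 := fun h => hv (Prod.ext h1 h)
        exact (Real.rpow_pos_of_pos (abs_pos.2 h2) p).trans_le (snd_le_Q hp hp1 v)
      · exact (Real.rpow_pos_of_pos (abs_pos.2 h1) p).trans_le (fst_le_Q hp hp1 v)
    exact Real.rpow_pos_of_pos this _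
  smul a v := by
    rw [NN, NN, Q_smul hp, Real.mul_rpow (by positivity) (Q_nonneg p v),
      Real.rpow_rpow_inv (abs_nonneg _) hp.ne']
  add v w := by
    rw [NN_rpow hp, NN_rpow hp, NN_rpow hp]
    exact Q_add hp hp1 v w

theorem lt_of_rpow_lt {a b p : ℝ} (hb : 0 ≤ b) (hp : 0 < p) (h : a ^ p < b ^ p) :
    a < b := by
  by_contra hcon
  push Not at hcon
  exact absurd (Real.rpow_le_rpow hb hcon hp.le) (not_le.2 h)

theorem isComplete {p : ℝ} (hp : 0 < p) (hp1 : p ≤ 1) : IsCompleteFor p (NN p) := by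
  intro u hu
  have h1 : ∀ ε : ℝ, 0 < ε → ∃ n₀, ∀ m ≥ n₀, ∀ n ≥ n₀, |(u m).1 - (u n).1| < ε ∧
      |(u m).2 - (u n).2| < ε := by
    intro ε hε
    obtain ⟨n₀, h⟩ := hu (ε ^ p) (Real.rpow_pos_of_pos hε p)
    refine ⟨n₀, fun m hm n hn => ?_⟩
    have h2 := h m hm n hn
    rw [NN_rpow hp] at h2
    exact ⟨lt_of_rpow_lt hε.le hp ((fst_le_Q hp hp1 (u m - u n)).trans_lt h2),
      lt_of_rpow_lt hε.le hp ((snd_le_Q hp hp1 (u m - u n)).trans_lt h2)⟩
  have hc1 : CauchySeq fun n => (u n).1 := by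
    rw [Metric.cauchySeq_iff]
    intro ε hε
    obtain ⟨n₀, h⟩ := h1 ε hε
    exact ⟨n₀, fun m hm n hn => (h m hm n hn).1⟩
  have hc2 : CauchySeq fun n => (u n).2 := by
    rw [Metric.cauchySeq_iff]
    intro ε hε
    obtain ⟨n₀, h⟩ := h1 ε hε
    exact ⟨n₀, fun m hm n hn => (h m hm n hn).2⟩
  obtain ⟨a, ha⟩ := cauchySeq_tendsto_of_complete hc1
  obtain ⟨b, hb⟩ := cauchySeq_tendsto_of_complete hc2
  refine ⟨(a, b), fun ε hε => ?_⟩
  have hlim : Tendsto (fun n => |(u n).1 - a| ^ p + (3 * |(u n).2 - b|) ^ p) atTop (𝓝 0) := by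
    have e1 : Tendsto (fun n => |(u n).1 - a| ^ p) atTop (𝓝 (|a - a| ^ p)) :=
      ((ha.sub_const a).abs).rpow_const (Or.inr hp.le)
    have e2 : Tendsto (fun n => (3 * |(u n).2 - b|) ^ p) atTop (𝓝 ((3 * |b - b|) ^ p)) :=
      (((hb.sub_const b).abs).const_mul 3).rpow_const (Or.inr hp.le)
    have e3 := e1.add e2
    simpa [Real.zero_rpow hp.ne'] using e3
  obtain ⟨n₀, hn₀⟩ := (hlim.eventually (gt_mem_nhds hε)).exists_forall_of_atTop
  refine ⟨n₀, fun n hn => ?_⟩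
  rw [NN_rpow hp]
  refine lt_of_le_of_lt ?_ (hn₀ n hn)
  have := Q_le p (u n - (a, b)) 0
  simpa [Real.zero_rpow hp.ne'] using this

theorem NN_le_of_Q_le {p : ℝ} (hp : 0 < p) {v : ℝ × ℝ} {t : ℝ} (ht : 0 ≤ t)
    (h : Q p v ≤ t ^ p) : NN p v ≤ t := by
  have := Real.rpow_le_rpow (Q_nonneg p v) h (inv_nonneg.2 hp.le)
  rwa [Real.rpow_rpow_inv ht hp.ne'] at this

/-- The embedding of `{0, 1, 3}`. -/
noncomputable def F (x : ℝ) : ℝ × ℝ := if x = 0 then (0, 0) else if x = 1 then (1, 0) else (0, 1)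

theorem F_lip {p : ℝ} (hp : 0 < p) (x y : ({0, 1, 3} : Set ℝ)) :
    NN p (F x - F y) ≤ 1 * dist x y := by
  have sym : ∀ v w : ℝ × ℝ, NN p (v - w) = NN p (w - v) := by
    intro v w
    have : v - w = (-1 : ℝ) • (w - v) := by
      simp
    rw [this, NN, Q_smul hp]
    simp [NN]
  have h0 : NN p 0 = 0 := by
    rw [NN, Q_zero hp, Real.zero_rpow (inv_ne_zero hp.ne')]
  have F0 : F 0 = (0, 0) := by simp [F]
  have F1 : F 1 = (1, 0) := by simp [F]
  have F3 : F 3 = (0, 1) := by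
    unfold F
    norm_num
  have h01 : NN p (F 0 - F 1) ≤ 1 := by
    rw [sym, F0, F1]
    refine NN_le_of_Q_le hp zero_le_one ?_
    have := Q_le p ((1, 0) - (0, 0)) 0
    simpa [Real.zero_rpow hp.ne'] using this
  have h03 : NN p (F 0 - F 3) ≤ 3 := by
    rw [sym, F0, F3]
    refine NN_le_of_Q_le hp (by norm_num) ?_
    have := Q_le p ((0, 1) - (0, 0)) 0
    simpa [Real.zero_rpow hp.ne'] using this
  have h13 : NN p (F 1 - F 3) ≤ 2 := by
    rw [F1, F3]
    refine NN_le_of_Q_le hp (by norm_num) ?_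
    have := Q_le p ((1, 0) - (0, 1)) (-1)
    simpa [Real.zero_rpow hp.ne'] using this
  rw [one_mul, Subtype.dist_eq]
  obtain ⟨x, hx⟩ := x
  obtain ⟨y, hy⟩ := y
  simp only [Set.mem_insert_iff, Set.mem_singleton_iff] at hx hy
  rcases hx with rfl | rfl | rfl <;> rcases hy with rfl | rfl | rfl
  · simp [h0]
  · refine h01.trans ?_
    simp
  · refine h03.trans ?_
    simp
  · rw [sym]
    refine h01.trans ?_
    simp
  · simp [h0]
  · refine h13.trans ?_
    rw [Real.dist_eq]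
    norm_num
  · rw [sym]
    refine h03.trans ?_
    simp [Real.dist_eq]
  · rw [sym]
    refine h13.trans ?_
    rw [Real.dist_eq]
    norm_num
  · simp [h0]

theorem not_extends {p C : ℝ} (hp : 0 < p) (hp1 : p ≤ 1) (hC : 0 ≤ C)
    (hpC : (60 * (C + 1)) ^ p < 2) : ¬ Extends p ({0, 1, 3} : Set ℝ) C := by
  intro hext
  obtain ⟨g, hg, hlip⟩ := hext (ℝ × ℝ) (NN p) (isPNorm hp hp1) (isComplete hp hp1)
    (fun x => F x) 1 zero_le_one (F_lip hp)
  have g0 : g 0 = (0, 0) := by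
    have := hg ⟨0, by simp⟩
    simpa [F] using this
  have g1 : g 1 = (1, 0) := by
    have := hg ⟨1, by simp⟩
    simpa [F] using this
  have g3 : g 3 = (0, 1) := by
    have := hg ⟨3, by simp⟩
    rw [this]
    unfold F
    norm_num
  -- basic analysis of a difference
  have good : ∀ x y : ℝ, 0 < |x - y| → |x - y| ≤ 3 → ∃ c : ℝ,
      |(g x - g y).1 + c| < (C + 1) * |x - y| ∧ 3 * |(g x - g y).2 - c| < (C + 1) * |x - y| ∧
      2 * |c| < (C + 1) * |x - y| ∧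
      ((|(g x - g y).1 + c| < 1 / 20 ∧ 3 * |(g x - g y).2 - c| < 1 / 20) ∨
        (|(g x - g y).1 + c| < 1 / 20 ∧ 2 * |c| < 1 / 20) ∨
        (3 * |(g x - g y).2 - c| < 1 / 20 ∧ 2 * |c| < 1 / 20)) := by
    intro x y hxy hxy3
    have h1 : Q p (g x - g y) < ((C + 1) * |x - y|) ^ p := by
      have h2 := hlip x y
      rw [mul_one, Real.dist_eq] at h2
      have h3 : NN p (g x - g y) < (C + 1) * |x - y| := by
        refine h2.trans_lt ?_
        nlinarith
      have h4 := Real.rpow_lt_rpow (NN_nonneg p _) h3 hp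
      rwa [NN_rpow hp] at h4
    obtain ⟨c, hc⟩ := exists_lt_of_ciInf_lt h1
    have hpos : 0 ≤ (C + 1) * |x - y| := by positivity
    have n1 : 0 ≤ |(g x - g y).1 + c| ^ p := by positivity
    have n2 : 0 ≤ (3 * |(g x - g y).2 - c|) ^ p := by positivity
    have n3 : 0 ≤ (2 * |c|) ^ p := by positivity
    have key : ∀ s t : ℝ, 0 ≤ s → 0 ≤ t → s ^ p + t ^ p < ((C + 1) * |x - y|) ^ p →
        s < 1 / 20 ∨ t < 1 / 20 := by
      intro s t hs ht hst
      by_contra hcon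
      push Not at hcon
      have e1 := Real.rpow_le_rpow (by norm_num) hcon.1 hp.le
      have e2 := Real.rpow_le_rpow (by norm_num) hcon.2 hp.le
      have e3 : ((C + 1) * |x - y|) ^ p ≤ (60 * (C + 1) * (1 / 20)) ^ p := by
        refine Real.rpow_le_rpow hpos ?_ hp.le
        nlinarith
      have e5 : (60 * (C + 1) * (1 / 20)) ^ p = (60 * (C + 1)) ^ p * ((1 : ℝ) / 20) ^ p :=
        Real.mul_rpow (by positivity) (by norm_num)
      rw [e5] at e3
      have e4 : 0 < ((1 : ℝ) / 20) ^ p := Real.rpow_pos_of_pos (by norm_num) _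
      nlinarith
    refine ⟨c, lt_of_rpow_lt hpos hp (by linarith), lt_of_rpow_lt hpos hp (by linarith),
      lt_of_rpow_lt hpos hp (by linarith), ?_⟩
    have k1 := key _ _ (abs_nonneg _) (by positivity : 0 ≤ 3 * |(g x - g y).2 - c|)
      (by linarith : |(g x - g y).1 + c| ^ p + _ < _)
    have k2 := key _ _ (abs_nonneg _) (by positivity : 0 ≤ 2 * |c|)
      (by linarith : |(g x - g y).1 + c| ^ p + _ < _)
    have k3 := key _ _ (by positivity) (by positivity : 0 ≤ 2 * |c|)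
      (by linarith : (3 * |(g x - g y).2 - c|) ^ p + _ < _)
    tauto
  have good' : ∀ x y : ℝ, 0 < |x - y| → |x - y| ≤ 3 →
      |(g x).1 - (g y).1 + ((g x).2 - (g y).2)| < 1 / 10 ∨ |(g x).1 - (g y).1| < 1 / 10 ∨
        |(g x).2 - (g y).2| < 1 / 10 := by
    intro x y hxy hxy3
    obtain ⟨c, -, -, -, h⟩ := good x y hxy hxy3
    simp only [Prod.fst_sub, Prod.snd_sub] at h
    rcases h with ⟨h1, h2⟩ | ⟨h1, h2⟩ | ⟨h1, h2⟩
    · left
      have h3 : |(g x).2 - (g y).2 - c| < 1 / 20 := by linarith [abs_nonneg ((g x).2 - (g y).2 - c)]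
      rw [abs_lt] at *
      constructor <;> linarith
    · right; left
      have h3 : |c| < 1 / 20 := by linarith [abs_nonneg c]
      rw [abs_lt] at *
      constructor <;> linarith
    · right; right
      have h4 : |(g x).2 - (g y).2 - c| < 1 / 20 := by linarith [abs_nonneg ((g x).2 - (g y).2 - c)]
      have h3 : |c| < 1 / 20 := by linarith [abs_nonneg c]
      rw [abs_lt] at *
      constructor <;> linarith
  -- every point of `(0, 1)` goes near a vertex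
  have near : ∀ x : ℝ, 0 < x → x < 1 →
      (|(g x).1| < 1 / 5 ∧ |(g x).2| < 1 / 5) ∨ (|(g x).1 - 1| < 1 / 5 ∧ |(g x).2| < 1 / 5) ∨
        (|(g x).1| < 1 / 5 ∧ |(g x).2 - 1| < 1 / 5) := by
    intro x hx0 hx1
    have a0 := good' x 0 (by rw [sub_zero]; exact abs_pos.2 hx0.ne')
      (by rw [sub_zero, abs_of_pos hx0]; linarith)
    have a1 := good' x 1 (abs_pos.2 (by linarith)) (by rw [abs_le]; constructor <;> linarith)
    have a3 := good' x 3 (abs_pos.2 (by linarith)) (by rw [abs_le]; constructor <;> linarith)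
    rw [g0] at a0
    rw [g1] at a1
    rw [g3] at a3
    simp only [sub_zero] at a0 a1 a3
    simp only [abs_lt] at a0 a1 a3 ⊢
    rcases a0 with ⟨p1, p2⟩ | ⟨p1, p2⟩ | ⟨p1, p2⟩ <;>
    rcases a1 with ⟨q1, q2⟩ | ⟨q1, q2⟩ | ⟨q1, q2⟩ <;>
    rcases a3 with ⟨r1, r2⟩ | ⟨r1, r2⟩ | ⟨r1, r2⟩ <;>
    first
    | (exfalso; linarith)
    | (left; refine ⟨⟨?_, ?_⟩, ⟨?_, ?_⟩⟩ <;> linarith)
    | (right; left; refine ⟨⟨?_, ?_⟩, ⟨?_, ?_⟩⟩ <;> linarith)
    | (right; right; refine ⟨⟨?_, ?_⟩, ⟨?_, ?_⟩⟩ <;> linarith)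
  -- the chain
  obtain ⟨n, hn⟩ := exists_nat_ge (10 * (C + 1))
  have hn0 : (0 : ℝ) < n := lt_of_lt_of_le (by positivity) hn
  have step : ∀ j : ℕ, j < n → (|(g (j / n)).1| < 1 / 5 ∧ |(g (j / n)).2| < 1 / 5) →
      (|(g ((j + 1 : ℕ) / n)).1| < 1 / 5 ∧ |(g ((j + 1 : ℕ) / n)).2| < 1 / 5) := by
    intro j hj hP
    by_contra hcon
    have hy1 : ((j + 1 : ℕ) : ℝ) / n ≤ 1 := by
      rw [div_le_one hn0]
      exact_mod_cast hj
    have hy0 : 0 < ((j + 1 : ℕ) : ℝ) / n := by positivity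
    have hdist : |((j + 1 : ℕ) : ℝ) / n - j / n| = 1 / n := by
      rw [← sub_div]
      push_cast
      rw [add_sub_cancel_left, abs_of_pos (by positivity)]
    have hn1 : 1 ≤ (n : ℝ) := by linarith
    obtain ⟨c, h1, h2, h3, -⟩ := good ((j + 1 : ℕ) / n) (j / n)
      (by rw [hdist]; positivity) (by
        rw [hdist, div_le_iff₀ hn0]
        linarith)
    rw [hdist] at h1 h2 h3
    have hb : (C + 1) * (1 / n) ≤ 1 / 10 := by
      rw [mul_one_div, div_le_div_iff₀ hn0 (by norm_num)]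
      linarith
    simp only [Prod.fst_sub, Prod.snd_sub] at h1 h2
    have h2' : |(g ((j + 1 : ℕ) / n)).2 - (g (j / n)).2 - c| < 1 / 30 := by linarith
    have h3' : |c| < 1 / 20 := by linarith
    have h1' : |(g ((j + 1 : ℕ) / n)).1 - (g (j / n)).1 + c| < 1 / 10 := by linarith
    have hnear : (|(g ((j + 1 : ℕ) / n)).1 - 1| < 1 / 5 ∧ |(g ((j + 1 : ℕ) / n)).2| < 1 / 5) ∨
        (|(g ((j + 1 : ℕ) / n)).1| < 1 / 5 ∧ |(g ((j + 1 : ℕ) / n)).2 - 1| < 1 / 5) := by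
      rcases hy1.lt_or_eq with hlt | heq
      · rcases near _ hy0 hlt with h | h | h
        · exact absurd h hcon
        · exact Or.inl h
        · exact Or.inr h
      · left
        rw [heq, g1]
        norm_num
    obtain ⟨hP1, hP2⟩ := hP
    rw [abs_lt] at h1' h2' h3' hP1 hP2
    rcases hnear with ⟨k1, k2⟩ | ⟨k1, k2⟩ <;> rw [abs_lt] at k1 k2
    · linarith
    · linarith
  have all : ∀ j : ℕ, j ≤ n → (|(g (j / n)).1| < 1 / 5 ∧ |(g (j / n)).2| < 1 / 5) := by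
    intro j
    induction j with
    | zero =>
      intro _
      rw [Nat.cast_zero, zero_div, g0]
      norm_num
    | succ j ih => exact fun hj => step j hj (ih (Nat.le_of_succ_le hj))
  have hfin := (all n le_rfl).1
  rw [div_self hn0.ne', g1] at hfin
  norm_num at hfin

theorem eventually_not_extends (C : ℝ) (hC : 0 ≤ C) :
    ∀ᶠ p : ℝ in 𝓝[>] 0, ¬ Extends p ({0, 1, 3} : Set ℝ) C := by
  have h1 : Tendsto (fun p : ℝ => (60 * (C + 1)) ^ p) (𝓝[>] 0) (𝓝 1) := by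
    have h2 : ContinuousAt (fun p : ℝ => (60 * (C + 1)) ^ p) 0 :=
      (Real.continuous_const_rpow (by positivity)).continuousAt
    have h3 := h2.tendsto
    rw [Real.rpow_zero] at h3
    exact h3.mono_left nhdsWithin_le_nhds
  have h2 := h1.eventually (gt_mem_nhds (by norm_num : (1 : ℝ) < 2))
  have h3 : ∀ᶠ p : ℝ in 𝓝[>] 0, p < 1 :=
    nhdsWithin_le_nhds (gt_mem_nhds (by norm_num : (0 : ℝ) < 1))
  filter_upwards [h2, h3, self_mem_nhdsWithin] with p hp hp1 hp0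
  exact not_extends hp0 hp1.le hC hp

theorem Extends.mono {p : ℝ} {M : Type} [MetricSpace M] {S : Set M} {C C' : ℝ} (h : Extends p S C)
    (hC : C ≤ C') : Extends p S C' := by
  intro Z _ _ N hN hc f L hL hf
  obtain ⟨g, hg, hlip⟩ := h Z N hN hc f L hL hf
  refine ⟨g, hg, fun x y => (hlip x y).trans ?_⟩
  exact mul_le_mul_of_nonneg_right (mul_le_mul_of_nonneg_right hC hL) dist_nonneg

theorem tendsto_trace : Tendsto (fun p : ℝ => trace p ({0, 1, 3} : Set ℝ)) (𝓝[>] 0) (𝓝 ⊤) := by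
  rw [ENNReal.tendsto_nhds_top_iff_nnreal]
  intro C
  filter_upwards [eventually_not_extends (C + 1) (by positivity)] with p hp
  have : ((C + 1 : ℝ≥0) : ℝ≥0∞) ≤ trace p ({0, 1, 3} : Set ℝ) := by
    refine le_iInf fun D => le_iInf fun _ => le_iInf fun hD => ?_
    rw [ENNReal.coe_le_coe]
    by_contra hcon
    push Not at hcon
    exact hp (hD.mono (by exact_mod_cast hcon.le))
  refine lt_of_lt_of_le ?_ this
  rw [ENNReal.coe_lt_coe]
  exact lt_add_one C

/-- The three point space `{0, 1, 3} ⊂ ℝ`. -/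
abbrev T : Type := ({0, 1, 3} : Set ℝ)

theorem card_T : Nat.card T = 3 := by
  rw [Nat.card_coe_set_eq, Set.ncard_insert_of_notMem (by norm_num), Set.ncard_pair (by norm_num)]

theorem trace_le_ae (p : ℝ) : trace p ({0, 1, 3} : Set ℝ) ≤ ae p T := by
  have h : Set.range (Subtype.val : T → ℝ) = {0, 1, 3} := Subtype.range_val
  have h2 : trace p (Set.range (Subtype.val : T → ℝ)) ≤ ae p T :=
    le_iSup_of_le ℝ (le_iSup_of_le inferInstance (le_iSup_of_le Subtype.val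
      (le_iSup_of_le isometry_subtype_coe le_rfl)))
  rwa [h] at h2

theorem tendsto_ae : Tendsto (fun p : ℝ => ae p T) (𝓝[>] 0) (𝓝 ⊤) :=
  tendsto_nhds_top_mono tendsto_trace (Eventually.of_forall trace_le_ae)

end Pool.Agent.X263.PB
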